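import Pool.Agent.Helper23.MC.Goals3

/-!
# Prescribed clusters of primes in deserts of record size: the main theorem, part 1
-/

set_option autoImplicit false

namespace Pool.Agent.Helper72.MC

open Pool.Agent.Helper23.MC
open Pool.Agent.Helper88.CR (Rec)

theorem mm (h0 : StmtMM0) : StmtMM := by
  classical
  intro k
  obtain ⟨K, c, hc, X, hX⟩ := h0 k
  refine ⟨K, c, hc, max X (Real.exp (Real.exp (Real.exp (Real.exp 1)))), fun x hx H hH hHc ha ↦ ?_⟩
  have hx1 : X ≤ x := (le_max_left _ _).trans hx
  have hx2 : Real.exp (Real.exp (Real.exp (Real.exp 1))) ≤ x := (le_max_right _ _).trans hx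
  have hx0 : 0 < x := (Real.exp_pos _).trans_le hx2
  have l1 : Real.exp (Real.exp (Real.exp 1)) ≤ Real.log x := (Real.le_log_iff_exp_le hx0).2 hx2
  have l1' : 0 < Real.log x := (Real.exp_pos _).trans_le l1
  have l2 : Real.exp (Real.exp 1) ≤ Real.log (Real.log x) := (Real.le_log_iff_exp_le l1').2 l1
  have l2' : 0 < Real.log (Real.log x) := (Real.exp_pos _).trans_le l2
  have l3 : Real.exp 1 ≤ Real.log (Real.log (Real.log x)) := (Real.le_log_iff_exp_le l2').2 l2
  have l3' : 0 < Real.log (Real.log (Real.log x)) := (Real.exp_pos _).trans_le l3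
  have l4 : 1 ≤ Real.log (Real.log (Real.log (Real.log x))) := (Real.le_log_iff_exp_le l3').2 l3
  have hR : Rec x = Real.log x * Real.log (Real.log x) ^ 2 *
    Real.log (Real.log (Real.log (Real.log x))) / Real.log (Real.log (Real.log x)) ^ 2 := rfl
  have hRpos : 0 ≤ c * Rec x := by
    rw [hR]
    have : (0 : ℝ) ≤ Real.log (Real.log (Real.log (Real.log x))) := by linarith
    positivity
  have h1 := hX x hx1 H hH (by rw [hR]; exact hHc) ha
  refine le_trans ?_ (h1.trans ?_)
  · apply Real.rpow_le_rpow_of_exponent_le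
    · have := Real.add_one_le_exp (Real.exp (Real.exp (Real.exp 1)))
      have := Real.exp_pos (Real.exp (Real.exp 1))
      linarith
    · have h2 : (0 : ℝ) < Real.log (Real.log x) ^ 2 := by positivity
      have : 1 / (4 * Real.log (Real.log x) ^ 2) ≤ 1 / Real.log (Real.log x) ^ 2 :=
        one_div_le_one_div_of_le h2 (by linarith)
      linarith
  · norm_cast
    apply Set.ncard_le_ncard
    · rintro m ⟨h2, h3, h4⟩
      refine ⟨by linarith, ?_, h4⟩
      rw [← hR]
      exact h3
    · apply (Set.finite_Iic ⌊x⌋₊).subset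
      rintro m ⟨h2, _⟩
      exact Nat.le_floor h2

end Pool.Agent.Helper72.MC
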